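import Mathlib

set_option autoImplicit false

/-! The Kalton-Peck map on `ℓ²`, with values in the space of all sequences. -/

namespace Pool.Agent.V11102.KP

open scoped ENNReal

/-- the real Hilbert space `ℓ²` -/
abbrev H : Type := lp (fun _ : ℕ => ℝ) 2

/-- `f` is the sequence of an element of `ℓ²` of norm at most `K` -/
def Bd (f : ℕ → ℝ) (K : ℝ) : Prop := ∃ h : H, (∀ n, h n = f n) ∧ ‖h‖ ≤ K

theorem two_pos' : 0 < (2 : ℝ≥0∞).toReal := by simp

theorem sq_sum_le (h : H) (s : Finset ℕ) : ∑ i ∈ s, (h i) ^ 2 ≤ ‖h‖ ^ 2 := by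
  have := lp.sum_rpow_le_norm_rpow two_pos' h s
  simpa using this

theorem norm_le_of_sum (h : H) {C : ℝ} (hC : 0 ≤ C) (hs : ∀ s : Finset ℕ, ∑ i ∈ s, (h i) ^ 2 ≤ C ^ 2) :
    ‖h‖ ≤ C := by
  apply lp.norm_le_of_forall_sum_le two_pos' hC
  intro s
  simpa using hs s

theorem Bd.of_sum {f : ℕ → ℝ} {C : ℝ} (hC : 0 ≤ C) (hs : ∀ s : Finset ℕ, ∑ i ∈ s, (f i) ^ 2 ≤ C ^ 2) :
    Bd f C := by
  have hm : Memℓp f 2 := by
    apply memℓp_gen' (C := C ^ 2)
    intro s
    simpa using hs s
  refine ⟨⟨f, hm⟩, fun n => rfl, norm_le_of_sum _ hC hs⟩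

theorem Bd.add {f g : ℕ → ℝ} {K L : ℝ} (hf : Bd f K) (hg : Bd g L) : Bd (f + g) (K + L) := by
  obtain ⟨a, ha, hK⟩ := hf
  obtain ⟨b, hb, hL⟩ := hg
  refine ⟨a + b, fun n => ?_, (norm_add_le a b).trans (add_le_add hK hL)⟩
  show a n + b n = f n + g n
  rw [ha, hb]

theorem Bd.smul {f : ℕ → ℝ} {K : ℝ} (c : ℝ) (hf : Bd f K) : Bd (c • f) (|c| * K) := by
  obtain ⟨a, ha, hK⟩ := hf
  refine ⟨c • a, fun n => ?_, ?_⟩
  · show c * a n = c * f n
    rw [ha]
  · rw [norm_smul]
    exact mul_le_mul_of_nonneg_left hK (abs_nonneg c)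

theorem Bd.neg {f : ℕ → ℝ} {K : ℝ} (hf : Bd f K) : Bd (-f) K := by
  obtain ⟨a, ha, hK⟩ := hf
  refine ⟨-a, fun n => ?_, by rw [norm_neg]; exact hK⟩
  show - a n = - f n
  rw [ha]

theorem Bd.sub {f g : ℕ → ℝ} {K L : ℝ} (hf : Bd f K) (hg : Bd g L) : Bd (f - g) (K + L) := by
  rw [sub_eq_add_neg]; exact hf.add hg.neg

theorem Bd.mono {f : ℕ → ℝ} {K L : ℝ} (hf : Bd f K) (h : K ≤ L) : Bd f L := by
  obtain ⟨a, ha, hK⟩ := hf
  exact ⟨a, ha, hK.trans h⟩

theorem Bd.zero {K : ℝ} (hK : 0 ≤ K) : Bd 0 K := ⟨0, fun n => rfl, by simpa using hK⟩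

theorem Bd.congr {f g : ℕ → ℝ} {K : ℝ} (hf : Bd f K) (h : ∀ n, f n = g n) : Bd g K := by
  have : f = g := funext h
  rwa [← this]

/-- domination by the absolute values of two elements -/
theorem Bd.of_abs {f : ℕ → ℝ} (x y : H) (h : ∀ n, |f n| ≤ |x n| + |y n|) :
    Bd f (2 * (‖x‖ + ‖y‖)) := by
  apply Bd.of_sum (by positivity)
  intro s
  have h1 : ∀ i ∈ s, (f i) ^ 2 ≤ 2 * (x i) ^ 2 + 2 * (y i) ^ 2 := by
    intro i _
    have h2 := h i
    have h3 : (f i) ^ 2 ≤ (|x i| + |y i|) ^ 2 := by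
      rw [← sq_abs (f i)]
      exact pow_le_pow_left₀ (abs_nonneg _) h2 2
    have h4 : (|x i| + |y i|) ^ 2 ≤ 2 * (x i) ^ 2 + 2 * (y i) ^ 2 := by
      rw [← sq_abs (x i), ← sq_abs (y i)]
      nlinarith [sq_nonneg (|x i| - |y i|)]
    exact h3.trans h4
  have h5 := Finset.sum_le_sum h1
  rw [Finset.sum_add_distrib, ← Finset.mul_sum, ← Finset.mul_sum] at h5
  have h6 := sq_sum_le x s
  have h7 := sq_sum_le y s
  have h8 := norm_nonneg x
  have h9 := norm_nonneg y
  nlinarith [mul_nonneg h8 h9, sq_nonneg ‖x‖, sq_nonneg ‖y‖]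

/-- `t log |t|` -/
noncomputable def phi (t : ℝ) : ℝ := t * Real.log t

theorem phi_neg (t : ℝ) : phi (-t) = - phi t := by
  unfold phi; rw [Real.log_neg_eq_log]; ring

theorem phi_same {a b : ℝ} (ha : 0 ≤ a) (hb : 0 ≤ b) :
    0 ≤ phi (a + b) - phi a - phi b ∧ phi (a + b) - phi a - phi b ≤ a + b := by
  rcases ha.eq_or_lt with rfl | ha'
  · simp [phi]; exact hb
  rcases hb.eq_or_lt with rfl | hb'
  · simp [phi]; exact ha
  have h1 : phi (a + b) - phi a - phi b = a * Real.log ((a + b) / a) + b * Real.log ((a + b) / b) := by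
    unfold phi
    rw [Real.log_div (by positivity) ha'.ne', Real.log_div (by positivity) hb'.ne']
    ring
  have h2 : 0 ≤ Real.log ((a + b) / a) := Real.log_nonneg (by
    rw [le_div_iff₀ ha']; linarith)
  have h3 : 0 ≤ Real.log ((a + b) / b) := Real.log_nonneg (by
    rw [le_div_iff₀ hb']; linarith)
  have h4 : Real.log ((a + b) / a) ≤ (a + b) / a - 1 :=
    Real.log_le_sub_one_of_pos (by positivity)
  have h5 : Real.log ((a + b) / b) ≤ (a + b) / b - 1 :=
    Real.log_le_sub_one_of_pos (by positivity)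
  have h6 : a * ((a + b) / a - 1) = b := by field_simp; ring
  have h7 : b * ((a + b) / b - 1) = a := by field_simp; ring
  rw [h1]
  constructor
  · positivity
  · have h8 := mul_le_mul_of_nonneg_left h4 ha
    have h9 := mul_le_mul_of_nonneg_left h5 hb
    rw [h6] at h8
    rw [h7] at h9
    linarith

theorem phi_quasi (a b : ℝ) : |phi (a + b) - phi a - phi b| ≤ |a| + |b| := by
  have key : ∀ a b : ℝ, 0 ≤ a → 0 ≤ b → b ≤ a → |phi (a - b) - phi a + phi b| ≤ a := by
    intro a b ha hb hab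
    have h := phi_same (a := a - b) (b := b) (by linarith) hb
    rw [sub_add_cancel] at h
    rw [abs_le]
    constructor <;> linarith [h.1, h.2]
  rcases le_total 0 a with ha | ha
  · rcases le_total 0 b with hb | hb
    · have h := phi_same ha hb
      rw [abs_of_nonneg ha, abs_of_nonneg hb, abs_of_nonneg h.1]
      exact h.2
    · rw [abs_of_nonneg ha, abs_of_nonpos hb]
      rcases le_total (-b) a with h1 | h1
      · have h := key a (-b) ha (by linarith) h1
        rw [phi_neg] at h
        have h2 : a - -b = a + b := by ring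
        rw [h2] at h
        have h3 : phi (a + b) - phi a - phi b = phi (a + b) - phi a + - phi b := by ring
        rw [h3]
        linarith
      · have h := key (-b) a (by linarith) ha h1
        rw [phi_neg] at h
        have h2 : -b - a = -(a + b) := by ring
        rw [h2, phi_neg] at h
        have h3 : phi (a + b) - phi a - phi b = -(-phi (a + b) - -phi b + phi a) := by ring
        rw [h3, abs_neg]
        linarith
  · rcases le_total 0 b with hb | hb
    · rw [abs_of_nonpos ha, abs_of_nonneg hb]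
      rcases le_total (-a) b with h1 | h1
      · have h := key b (-a) hb (by linarith) h1
        rw [phi_neg] at h
        have h2 : b - -a = a + b := by ring
        rw [h2] at h
        have h3 : phi (a + b) - phi a - phi b = phi (a + b) - phi b + - phi a := by ring
        rw [h3]
        linarith
      · have h := key (-a) b (by linarith) hb h1
        rw [phi_neg] at h
        have h2 : -a - b = -(a + b) := by ring
        rw [h2, phi_neg] at h
        have h3 : phi (a + b) - phi a - phi b = -(-phi (a + b) - -phi a + phi b) := by ring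
        rw [h3, abs_neg]
        linarith
    · have h := phi_same (a := -a) (b := -b) (by linarith) (by linarith)
      have h2 : -a + -b = -(a + b) := by ring
      rw [h2, phi_neg, phi_neg, phi_neg] at h
      rw [abs_of_nonpos ha, abs_of_nonpos hb]
      have h3 : phi (a + b) - phi a - phi b = -(-phi (a + b) - -phi a - -phi b) := by ring
      rw [h3, abs_neg, abs_of_nonneg h.1]
      linarith [h.2]

/-- the scalar estimate `t |log (t / N)| ≤ N` -/
theorem tlog {t N : ℝ} (ht : 0 ≤ t) (h : t ≤ N) : |t * (Real.log t - Real.log N)| ≤ N := by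
  rcases ht.eq_or_lt with rfl | ht'
  · simp; exact h
  have hN : 0 < N := lt_of_lt_of_le ht' h
  have h1 : Real.log t ≤ Real.log N := Real.log_le_log ht' h
  have h2 := Real.log_le_sub_one_of_pos (x := N / t) (by positivity)
  rw [Real.log_div hN.ne' ht'.ne'] at h2
  have h3 : t * (Real.log N - Real.log t) ≤ t * (N / t - 1) := mul_le_mul_of_nonneg_left h2 ht
  have h4 : t * (N / t - 1) = N - t := by field_simp
  rw [abs_of_nonpos (mul_nonpos_of_nonneg_of_nonpos ht (by linarith))]
  nlinarith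

/-- the Kalton-Peck map (values are arbitrary sequences) -/
noncomputable def K0 (x : H) : ℕ → ℝ := fun n => x n * (Real.log (x n) - Real.log ‖x‖)

theorem K0_zero : K0 0 = 0 := by
  funext n
  show (0 : ℝ) * _ = 0
  rw [zero_mul]

theorem K0_smul (c : ℝ) (x : H) : K0 (c • x) = c • K0 x := by
  funext n
  show (c • x : H) n * (Real.log ((c • x : H) n) - Real.log ‖c • x‖) =
    c * (x n * (Real.log (x n) - Real.log ‖x‖))
  have h1 : (c • x : H) n = c * x n := rfl
  rw [h1, norm_smul]
  rcases eq_or_ne c 0 with rfl | hc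
  · simp
  rcases eq_or_ne (x n) 0 with hx | hx
  · rw [hx]; simp
  have hx' : ‖x‖ ≠ 0 := by
    intro h
    apply hx
    rw [norm_eq_zero.mp h]
    rfl
  rw [Real.log_mul hc hx, Real.log_mul (norm_ne_zero_iff.mpr hc) hx', Real.norm_eq_abs,
    Real.log_abs]
  ring

theorem K0_quasi (x y : H) : Bd (K0 (x + y) - K0 x - K0 y) (5 * (‖x‖ + ‖y‖)) := by
  set N : ℝ := ‖x‖ + ‖y‖ with hN
  have hx := norm_nonneg x
  have hy := norm_nonneg y
  have hxy := norm_add_le x y
  -- first part
  have h1 : Bd (fun n => phi (x n + y n) - phi (x n) - phi (y n)) (2 * (‖x‖ + ‖y‖)) :=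
    Bd.of_abs x y (fun n => phi_quasi _ _)
  -- second part
  have h2 : Bd (fun n => (Real.log ‖x + y‖ - Real.log N) * (x + y : H) n) N := by
    refine ⟨(Real.log ‖x + y‖ - Real.log N) • (x + y), fun n => rfl, ?_⟩
    rw [norm_smul, Real.norm_eq_abs, mul_comm, ← abs_of_nonneg (norm_nonneg (x + y)), ← abs_mul,
      abs_of_nonneg (norm_nonneg (x + y))]
    exact tlog (norm_nonneg _) hxy
  have h3 : Bd (fun n => (Real.log ‖x‖ - Real.log N) * x n) N := by
    refine ⟨(Real.log ‖x‖ - Real.log N) • x, fun n => rfl, ?_⟩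
    rw [norm_smul, Real.norm_eq_abs, mul_comm, ← abs_of_nonneg (norm_nonneg x), ← abs_mul,
      abs_of_nonneg (norm_nonneg x)]
    exact tlog hx (by linarith)
  have h4 : Bd (fun n => (Real.log ‖y‖ - Real.log N) * y n) N := by
    refine ⟨(Real.log ‖y‖ - Real.log N) • y, fun n => rfl, ?_⟩
    rw [norm_smul, Real.norm_eq_abs, mul_comm, ← abs_of_nonneg (norm_nonneg y), ← abs_mul,
      abs_of_nonneg (norm_nonneg y)]
    exact tlog hy (by linarith)
  have h5 := ((h1.sub h2).add h3).add h4
  refine (h5.congr (fun n => ?_)).mono (by rw [← hN]; linarith)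
  have h6 : (x + y : H) n = x n + y n := rfl
  simp only [Pi.add_apply, Pi.sub_apply, K0, phi, h6]
  ring

theorem K0_sum (n : ℕ) (y : ℕ → H) :
    Bd (K0 (∑ i ∈ Finset.range n, y i) - ∑ i ∈ Finset.range n, K0 (y i))
      (5 * n * ∑ i ∈ Finset.range n, ‖y i‖) := by
  induction n with
  | zero => simp only [Finset.range_zero, Finset.sum_empty, K0_zero, sub_self]; exact Bd.zero (by simp)
  | succ n ih =>
    rw [Finset.sum_range_succ, Finset.sum_range_succ, Finset.sum_range_succ]
    have h1 := K0_quasi (∑ i ∈ Finset.range n, y i) (y n)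
    have h2 := h1.add ih
    have h3 : ‖∑ i ∈ Finset.range n, y i‖ ≤ ∑ i ∈ Finset.range n, ‖y i‖ := norm_sum_le _ _
    have h4 : 0 ≤ ∑ i ∈ Finset.range n, ‖y i‖ := Finset.sum_nonneg (fun i _ => norm_nonneg _)
    refine (h2.congr (fun k => ?_)).mono ?_
    · simp only [Pi.add_apply, Pi.sub_apply]; ring
    · push_cast
      have h5 := norm_nonneg (y n)
      have h6 : (0 : ℝ) ≤ n := Nat.cast_nonneg n
      nlinarith [mul_nonneg h6 h5]

/-- Value of the Kalton-Peck map on combinations of disjointly supported vectors. -/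
theorem K0_disj (n : ℕ) (w : ℕ → H) (b : ℕ → ℝ) (hb : ∀ i < n, b i ≠ 0)
    (hd : ∀ k, ∀ i < n, ∀ j < n, w i k ≠ 0 → w j k ≠ 0 → i = j) (k : ℕ) :
    K0 (∑ i ∈ Finset.range n, b i • w i) k - ∑ i ∈ Finset.range n, b i * K0 (w i) k =
      ∑ i ∈ Finset.range n, (Real.log (b i) - Real.log ‖∑ i ∈ Finset.range n, b i • w i‖ +
        Real.log ‖w i‖) * (b i * w i k) := by
  set W : H := ∑ i ∈ Finset.range n, b i • w i with hW
  have hWk : W k = ∑ i ∈ Finset.range n, b i * w i k := by
    let ev : H →+ ℝ :=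
      { toFun := fun x => x k
        map_zero' := rfl
        map_add' := fun x y => rfl }
    have : ev W = ∑ i ∈ Finset.range n, ev (b i • w i) := by rw [hW, map_sum]
    exact this
  by_cases hex : ∃ i < n, w i k ≠ 0
  · obtain ⟨i, hi, hik⟩ := hex
    have hz : ∀ j ∈ Finset.range n, j ≠ i → w j k = 0 := by
      intro j hj hji
      by_contra h
      exact hji (hd k j (Finset.mem_range.mp hj) i hi h hik)
    have h1 : W k = b i * w i k := by
      rw [hWk]
      apply Finset.sum_eq_single_of_mem i (Finset.mem_range.mpr hi)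
      intro j hj hji
      rw [hz j hj hji, mul_zero]
    rw [Finset.sum_eq_single_of_mem i (Finset.mem_range.mpr hi),
      Finset.sum_eq_single_of_mem i (Finset.mem_range.mpr hi)]
    · unfold K0
      rw [h1, Real.log_mul (hb i hi) hik]
      ring
    · intro j hj hji
      rw [hz j hj hji]; ring
    · intro j hj hji
      unfold K0
      rw [hz j hj hji]; ring
  · push Not at hex
    have h1 : W k = 0 := by
      rw [hWk]
      apply Finset.sum_eq_zero
      intro i hi
      rw [hex i (Finset.mem_range.mp hi), mul_zero]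
    rw [Finset.sum_eq_zero, Finset.sum_eq_zero]
    · unfold K0; rw [h1]; ring
    · intro i hi
      rw [hex i (Finset.mem_range.mp hi)]; ring
    · intro i hi
      unfold K0
      rw [hex i (Finset.mem_range.mp hi)]; ring

end Pool.Agent.V11102.KP
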