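import Mathlib
import Pool.Agent.V11102.KP.Basic

/-!
Diagonal operators, the right shift and a non-compact difference on `ℓ²`.
-/

set_option autoImplicit false

namespace Pool.Agent.V11102.KP

open scoped ENNReal
open Filter Topology

/-! ### Weighted operators -/

/-- multiplication by a bounded sequence -/
noncomputable def dg (w : ℕ → ℝ) (B : ℝ) (hB : 0 ≤ B) (hw : ∀ n, |w n| ≤ B) : H →L[ℝ] H :=
  have key : ∀ (x : H) (s : Finset ℕ), ∑ i ∈ s, (w i * x i) ^ 2 ≤ (B * ‖x‖) ^ 2 := by
    intro x s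
    calc ∑ i ∈ s, (w i * x i) ^ 2 ≤ ∑ i ∈ s, B ^ 2 * (x i) ^ 2 := by
          apply Finset.sum_le_sum
          intro i _
          rw [mul_pow]
          apply mul_le_mul_of_nonneg_right _ (sq_nonneg _)
          rw [← sq_abs]
          exact pow_le_pow_left₀ (abs_nonneg _) (hw i) 2
      _ = B ^ 2 * ∑ i ∈ s, (x i) ^ 2 := by rw [Finset.mul_sum]
      _ ≤ B ^ 2 * ‖x‖ ^ 2 := mul_le_mul_of_nonneg_left (sq_sum_le x s) (sq_nonneg _)
      _ = (B * ‖x‖) ^ 2 := by ring
  have mem : ∀ x : H, Memℓp (fun n => w n * x n) 2 := fun x => by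
    apply memℓp_gen' (C := (B * ‖x‖) ^ 2)
    intro s
    have h1 := key x s
    simp only [mul_pow] at h1
    simpa [mul_pow] using h1
  LinearMap.mkContinuous
    { toFun := fun x => (⟨fun n => w n * x n, mem x⟩ : H)
      map_add' := fun x y => by
        ext n
        show w n * (x n + y n) = w n * x n + w n * y n
        ring
      map_smul' := fun c x => by
        ext n
        show w n * (c * x n) = c * (w n * x n)
        ring } B (fun x => by
      apply norm_le_of_sum _ (by positivity)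
      intro s
      exact key x s)

theorem dg_apply (w : ℕ → ℝ) (B : ℝ) (hB : 0 ≤ B) (hw : ∀ n, |w n| ≤ B) (x : H) (n : ℕ) :
    dg w B hB hw x n = w n * x n := rfl

/-- the right shift of a sequence -/
def sh (f : ℕ → ℝ) : ℕ → ℝ
  | 0 => 0
  | n + 1 => f n

theorem sh_sum (f : ℕ → ℝ) (K : ℝ) (h : ∀ s : Finset ℕ, ∑ i ∈ s, (f i) ^ 2 ≤ K)
    (s : Finset ℕ) : ∑ i ∈ s, (sh f i) ^ 2 ≤ K := by
  classical
  let t : Finset ℕ := (s.filter (fun i => i ≠ 0)).image (fun i => i - 1)
  have h1 : ∑ i ∈ s, (sh f i) ^ 2 = ∑ i ∈ s.filter (fun i => i ≠ 0), (sh f i) ^ 2 := by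
    rw [Finset.sum_filter]
    apply Finset.sum_congr rfl
    intro i _
    split_ifs with hi
    · rfl
    · push Not at hi
      rw [hi]
      simp [sh]
  have h2 : ∑ i ∈ s.filter (fun i => i ≠ 0), (sh f i) ^ 2 = ∑ j ∈ t, (f j) ^ 2 := by
    rw [Finset.sum_image]
    · apply Finset.sum_congr rfl
      intro i hi
      have h3 := (Finset.mem_filter.mp hi).2
      obtain ⟨j, rfl⟩ := Nat.exists_eq_succ_of_ne_zero h3
      rfl
    · intro i hi j hj hij
      have h3 := (Finset.mem_filter.mp hi).2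
      have h4 := (Finset.mem_filter.mp hj).2
      have h5 : i - 1 = j - 1 := hij
      omega
  rw [h1, h2]
  exact h t

/-- the right shift on `ℓ²` -/
noncomputable def U : H →L[ℝ] H :=
  have key : ∀ (x : H) (s : Finset ℕ), ∑ i ∈ s, (sh x i) ^ 2 ≤ ‖x‖ ^ 2 :=
    fun x s => sh_sum x _ (fun s => sq_sum_le x s) s
  have mem : ∀ x : H, Memℓp (sh x) 2 := fun x => by
    apply memℓp_gen' (C := ‖x‖ ^ 2)
    intro s
    simpa using key x s
  LinearMap.mkContinuous
    { toFun := fun x => (⟨sh x, mem x⟩ : H)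
      map_add' := fun x y => by
        ext n
        cases n with
        | zero => show (0 : ℝ) = 0 + 0; ring
        | succ n => rfl
      map_smul' := fun c x => by
        ext n
        cases n with
        | zero => show (0 : ℝ) = c * 0; ring
        | succ n => rfl } 1 (fun x => by
      rw [one_mul]
      apply norm_le_of_sum _ (norm_nonneg x)
      intro s
      exact key x s)

theorem U_zero (x : H) : U x 0 = 0 := rfl
theorem U_succ (x : H) (n : ℕ) : U x (n + 1) = x n := rfl

theorem U_norm (x : H) : ‖U x‖ = ‖x‖ := by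
  classical
  apply le_antisymm
  · apply norm_le_of_sum _ (norm_nonneg x)
    intro s
    exact sh_sum x _ (fun s => sq_sum_le x s) s
  · apply norm_le_of_sum _ (norm_nonneg _)
    intro s
    have h1 := sq_sum_le (U x) (s.image (fun i => i + 1))
    rw [Finset.sum_image (fun i _ j _ h => by
      have h' : i + 1 = j + 1 := h
      omega)] at h1
    exact h1

/-- the weights `1, 2, 1, 2, …` -/
noncomputable def ww (n : ℕ) : ℝ := if n % 2 = 0 then 1 else 2

theorem ww_pos (n : ℕ) : 0 < ww n := by unfold ww; split_ifs <;> norm_num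

theorem ww_abs (n : ℕ) : |ww n| ≤ 2 := by
  unfold ww; split_ifs <;> norm_num

theorem ww_inv (n : ℕ) : |(ww n)⁻¹| ≤ 1 := by
  unfold ww; split_ifs <;> norm_num

theorem ww_succ (n : ℕ) : 1 / 2 ≤ |ww (n + 1) * (ww n)⁻¹ - 1| := by
  unfold ww
  rcases Nat.mod_two_eq_zero_or_one n with h | h
  · have h1 : (n + 1) % 2 ≠ 0 := by omega
    rw [if_pos h, if_neg h1]
    norm_num
  · have h1 : (n + 1) % 2 = 0 := by omega
    have h2 : n % 2 ≠ 0 := by omega
    rw [if_pos h1, if_neg h2]
    norm_num [abs_of_nonneg, abs_of_nonpos]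

/-- the diagonal operator with weights `1, 2, 1, 2, …` -/
noncomputable def D : H →L[ℝ] H := dg ww 2 (by norm_num) ww_abs

/-- its inverse -/
noncomputable def D' : H →L[ℝ] H := dg (fun n => (ww n)⁻¹) 1 (by norm_num) ww_inv

theorem D_apply (x : H) (n : ℕ) : D x n = ww n * x n := rfl
theorem D'_apply (x : H) (n : ℕ) : D' x n = (ww n)⁻¹ * x n := rfl

theorem D'_D (x : H) : D' (D x) = x := by
  ext n
  rw [D'_apply, D_apply, ← mul_assoc, inv_mul_cancel₀ (ww_pos n).ne', one_mul]

/-- the operator `T = D U D⁻¹` -/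
noncomputable def T : H →L[ℝ] H := D.comp (U.comp D')

theorem T_succ (x : H) (n : ℕ) : T x (n + 1) = ww (n + 1) * ((ww n)⁻¹ * x n) := rfl
theorem T_zero (x : H) : T x 0 = 0 := by
  show ww 0 * (0 : ℝ) = 0
  rw [mul_zero]

theorem not_compact : ¬ IsCompactOperator (fun x => T x - U x) := by
  intro h
  have hcl : IsCompact (closure ((fun x => T x - U x) '' Metric.closedBall (0 : H) 1)) := by
    have h' : IsCompactOperator ((T - U : H →L[ℝ] H) : H →ₗ[ℝ] H) := h
    exact h'.isCompact_closure_image_closedBall 1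
  let e : ℕ → H := fun n => lp.single 2 n (1 : ℝ)
  have he : ∀ n, e n ∈ Metric.closedBall (0 : H) 1 := by
    intro n
    rw [mem_closedBall_zero_iff]
    show ‖(lp.single 2 n (1 : ℝ) : H)‖ ≤ 1
    rw [lp.norm_single (by norm_num)]
    simp
  have hval : ∀ n m, (T (e n) - U (e n)) (m + 1) =
      if m = n then ww (n + 1) * (ww n)⁻¹ - 1 else 0 := by
    intro n m
    show T (e n) (m + 1) - U (e n) (m + 1) = _
    rw [T_succ, U_succ]
    have h1 : (e n) m = if m = n then (1 : ℝ) else 0 := by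
      show (lp.single 2 n (1 : ℝ) : H) m = _
      rw [lp.single_apply, Pi.single_apply]
    rw [h1]
    split_ifs with h2
    · rw [h2]; ring
    · ring
  obtain ⟨y, -, φ, hφ, hlim⟩ := hcl.tendsto_subseq
    (x := fun n => T (e n) - U (e n)) (fun n => subset_closure ⟨e n, he n, rfl⟩)
  have hc := hlim.cauchySeq
  rw [Metric.cauchySeq_iff] at hc
  obtain ⟨N, hN⟩ := hc (1 / 2) (by norm_num)
  have h1 := hN N le_rfl (N + 1) (Nat.le_succ N)
  rw [dist_eq_norm] at h1
  have h2 : 1 / 2 ≤ ‖((fun n => T (e n) - U (e n)) ∘ φ) N -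
      ((fun n => T (e n) - U (e n)) ∘ φ) (N + 1)‖ := by
    have h3 := sq_sum_le (((fun n => T (e n) - U (e n)) ∘ φ) N -
      ((fun n => T (e n) - U (e n)) ∘ φ) (N + 1)) {φ N + 1}
    rw [Finset.sum_singleton] at h3
    have h4 : (((fun n => T (e n) - U (e n)) ∘ φ) N -
      ((fun n => T (e n) - U (e n)) ∘ φ) (N + 1) : H) (φ N + 1) =
        ww (φ N + 1) * (ww (φ N))⁻¹ - 1 := by
      show (T (e (φ N)) - U (e (φ N))) (φ N + 1) -
        (T (e (φ (N + 1))) - U (e (φ (N + 1)))) (φ N + 1) = _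
      rw [hval, hval, if_pos rfl, if_neg (hφ (Nat.lt_succ_self N)).ne, sub_zero]
    rw [h4] at h3
    have h5 := ww_succ (φ N)
    have h6 := abs_le_of_sq_le_sq h3 (norm_nonneg _)
    exact h5.trans h6
  linarith


theorem D_D' (x : H) : D (D' x) = x := by
  ext n
  rw [D_apply, D'_apply, ← mul_assoc, mul_inv_cancel₀ (ww_pos n).ne', one_mul]

theorem T_eq (x : H) : T x = D (U (D' x)) := rfl

/-- coordinates of the Kalton-Peck map are dominated by the norm -/
theorem K0_coord_le (z : H) (k : ℕ) : |K0 z k| ≤ ‖z‖ := by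
  have h1 : |z k| ≤ ‖z‖ := by
    have h2 := sq_sum_le z {k}
    rw [Finset.sum_singleton] at h2
    exact abs_le_of_sq_le_sq h2 (norm_nonneg z)
  have h2 := tlog (abs_nonneg (z k)) h1
  have h3 : |K0 z k| = abs (|z k| * (Real.log |z k| - Real.log ‖z‖)) := by
    show |z k * (Real.log (z k) - Real.log ‖z‖)| = _
    rw [Real.log_abs, abs_mul, abs_mul, abs_abs]
  rw [h3]
  exact h2

theorem coord_le (z : H) (k : ℕ) : |z k| ≤ ‖z‖ := by
  have h2 := sq_sum_le z {k}
  rw [Finset.sum_singleton] at h2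
  exact abs_le_of_sq_le_sq h2 (norm_nonneg z)

theorem coord_cont (k : ℕ) : Continuous (fun z : H => (z k : ℝ)) := by
  apply LipschitzWith.continuous (K := 1)
  apply LipschitzWith.of_dist_le_mul
  intro x y
  rw [dist_eq_norm, dist_eq_norm, NNReal.coe_one, one_mul]
  exact coord_le (x - y) k

theorem K0_cont (k : ℕ) : Continuous (fun z : H => K0 z k) := by
  rw [continuous_iff_continuousAt]
  intro z
  rcases eq_or_ne z 0 with rfl | hz
  · have h1 : K0 (0 : H) k = 0 := by rw [K0_zero]; rfl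
    show Tendsto (fun z : H => K0 z k) (𝓝 0) (𝓝 (K0 0 k))
    rw [h1]
    apply squeeze_zero_norm (a := fun z : H => ‖z‖)
    · intro z
      exact K0_coord_le z k
    · have := (continuous_norm (E := H)).tendsto (0 : H)
      rwa [norm_zero] at this
  · have h1 : (fun z : H => K0 z k) = fun z : H => z k * Real.log (z k) - z k * Real.log ‖z‖ := by
      funext z
      show z k * (Real.log (z k) - Real.log ‖z‖) = _
      ring
    rw [h1]
    apply ContinuousAt.sub
    · exact (Real.continuous_mul_log.comp (coord_cont k)).continuousAt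
    · apply ContinuousAt.mul (coord_cont k).continuousAt
      exact ContinuousAt.log continuous_norm.continuousAt (norm_ne_zero_iff.mpr hz)

end Pool.Agent.V11102.KP
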