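import Mathlib
import Pool.Agent.V11102.KP.Basic

set_option autoImplicit false

/-! The Kalton-Peck map is singular. -/

namespace Pool.Agent.V11102.KP

open scoped ENNReal
open Filter Topology

theorem exists_ext : ∃ (Λ : H →ₗ[ℝ] (ℕ → ℝ)) (Ω : H → H), ∀ x n, Ω x n = K0 x n - Λ x n := by
  classical
  let b := Module.Basis.ofVectorSpace ℝ H
  let Λ : H →ₗ[ℝ] (ℕ → ℝ) := b.constr ℝ (fun i => K0 (b i))
  have hP : ∀ x : H, ∃ K, Bd (K0 x - Λ x) K := by
    intro x
    have hx : x ∈ Submodule.span ℝ (Set.range b) := by rw [b.span_eq]; trivial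
    induction hx using Submodule.span_induction with
    | mem x hx =>
      obtain ⟨i, rfl⟩ := hx
      refine ⟨0, ?_⟩
      rw [Module.Basis.constr_basis, sub_self]
      exact Bd.zero le_rfl
    | zero =>
      refine ⟨0, ?_⟩
      rw [K0_zero, map_zero, sub_self]
      exact Bd.zero le_rfl
    | add x y _ _ hx hy =>
      obtain ⟨K, hK⟩ := hx
      obtain ⟨L, hL⟩ := hy
      refine ⟨_, (((K0_quasi x y).add hK).add hL).congr (fun n => ?_)⟩
      rw [map_add]
      simp only [Pi.add_apply, Pi.sub_apply]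
      ring
    | smul a x _ hx =>
      obtain ⟨K, hK⟩ := hx
      refine ⟨_, (hK.smul a).congr (fun n => ?_)⟩
      rw [map_smul, K0_smul]
      simp only [Pi.smul_apply, Pi.sub_apply, smul_eq_mul]
      ring
  choose K hK using hP
  choose Ω hΩ _ using hK
  exact ⟨Λ, Ω, fun x n => hΩ x n⟩

/-- evaluation of a finite truncation -/
theorem trunc_apply (x : H) (N k : ℕ) :
    (∑ i ∈ Finset.range N, lp.single 2 i (x i) : H) k = if k < N then x k else 0 := by
  let ev : H →+ ℝ :=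
    { toFun := fun x => x k
      map_zero' := rfl
      map_add' := fun x y => rfl }
  have h1 : (∑ i ∈ Finset.range N, lp.single 2 i (x i) : H) k =
      ∑ i ∈ Finset.range N, (lp.single 2 i (x i) : H) k :=
    map_sum ev (fun i => (lp.single 2 i (x i) : H)) (Finset.range N)
  rw [h1]
  simp only [lp.single_apply, Pi.single_apply]
  rw [Finset.sum_ite_eq]
  simp only [Finset.mem_range]

theorem exists_vec (W : Submodule ℝ H) (hW : ¬ FiniteDimensional ℝ W) (N : ℕ) (ε : ℝ)
    (hε : 0 < ε) :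
    ∃ (x w t : H) (N' : ℕ), x ∈ W ∧ ‖x‖ = 1 ∧ x = w + t ∧ ‖t‖ ≤ ε ∧
      (∀ k, w k ≠ 0 → N ≤ k ∧ k < N') ∧ N ≤ N' := by
  classical
  let f : W →ₗ[ℝ] (Fin N → ℝ) :=
    { toFun := fun x i => (x : H) i
      map_add' := fun x y => rfl
      map_smul' := fun c x => rfl }
  have hf : ¬ Function.Injective f := fun h => hW (FiniteDimensional.of_injective f h)
  rw [← LinearMap.ker_eq_bot] at hf
  obtain ⟨y, hy, hy0⟩ := Submodule.exists_mem_ne_zero_of_ne_bot hf
  have hyk : ∀ k < N, (y : H) k = 0 := fun k hk => congrFun (LinearMap.mem_ker.mp hy) ⟨k, hk⟩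
  have hyn : ‖(y : H)‖ ≠ 0 := by
    intro h
    apply hy0
    exact Subtype.ext (norm_eq_zero.mp h)
  let x : H := ‖(y : H)‖⁻¹ • (y : H)
  have hxW : x ∈ W := W.smul_mem _ y.2
  have hx1 : ‖x‖ = 1 := by
    show ‖‖(y : H)‖⁻¹ • (y : H)‖ = 1
    rw [norm_smul, norm_inv, norm_norm, inv_mul_cancel₀ hyn]
  have hxk : ∀ k < N, x k = 0 := by
    intro k hk
    show ‖(y : H)‖⁻¹ * (y : H) k = 0
    rw [hyk k hk, mul_zero]
  have hs : Tendsto (fun n => ∑ i ∈ Finset.range n, (lp.single 2 i (x i) : H)) atTop (𝓝 x) :=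
    (lp.hasSum_single (by norm_num) x).tendsto_sum_nat
  rw [Metric.tendsto_atTop] at hs
  obtain ⟨n0, hn0⟩ := hs ε hε
  let N' := max n0 N
  let w : H := ∑ i ∈ Finset.range N', lp.single 2 i (x i)
  refine ⟨x, w, x - w, N', hxW, hx1, by abel, ?_, ?_, le_max_right _ _⟩
  · have := hn0 N' (le_max_left _ _)
    rw [dist_comm, dist_eq_norm] at this
    exact this.le
  · intro k hk
    have h1 : w k = if k < N' then x k else 0 := trunc_apply x N' k
    rw [h1] at hk
    constructor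
    · by_contra h
      push Not at h
      rw [hxk k h] at hk
      simp at hk
    · by_contra h
      rw [if_neg h] at hk
      exact hk rfl

theorem exists_signs (n : ℕ) (v : ℕ → H) : ∃ θ : ℕ → ℝ, (∀ i, θ i = 1 ∨ θ i = -1) ∧
    ‖∑ i ∈ Finset.range n, θ i • v i‖ ^ 2 ≤ ∑ i ∈ Finset.range n, ‖v i‖ ^ 2 := by
  induction n with
  | zero => exact ⟨fun _ => 1, fun _ => Or.inl rfl, by simp⟩
  | succ n ih =>
    obtain ⟨θ, h1, h2⟩ := ih
    set S : H := ∑ i ∈ Finset.range n, θ i • v i with hS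
    obtain ⟨s, hs, hin⟩ : ∃ s : ℝ, (s = 1 ∨ s = -1) ∧ inner ℝ S (s • v n) ≤ 0 := by
      rcases le_total (inner ℝ S (v n)) 0 with h | h
      · exact ⟨1, Or.inl rfl, by rw [one_smul]; exact h⟩
      · refine ⟨-1, Or.inr rfl, ?_⟩
        rw [real_inner_smul_right]; linarith
    refine ⟨Function.update θ n s, ?_, ?_⟩
    · intro i
      by_cases hi : i = n
      · rw [hi, Function.update_self]; exact hs
      · rw [Function.update_of_ne hi]; exact h1 i
    · rw [Finset.sum_range_succ, Finset.sum_range_succ, Function.update_self]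
      have h3 : ∑ i ∈ Finset.range n, Function.update θ n s i • v i = S := by
        rw [hS]
        apply Finset.sum_congr rfl
        intro i hi
        rw [Function.update_of_ne (Finset.mem_range.mp hi).ne]
      rw [h3, norm_add_sq_real]
      have h4 : ‖s • v n‖ ^ 2 = ‖v n‖ ^ 2 := by
        rw [norm_smul]
        rcases hs with rfl | rfl <;> simp
      rw [h4]
      linarith

theorem inner_disj {x y : H} (h : ∀ k, x k = 0 ∨ y k = 0) : inner ℝ x y = (0 : ℝ) := by
  rw [lp.inner_eq_tsum]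
  have : (fun i => inner ℝ (x i) (y i)) = fun _ => (0 : ℝ) := by
    funext i
    rcases h i with h1 | h1
    · rw [h1, inner_zero_left]
    · rw [h1, inner_zero_right]
  rw [this, tsum_zero]

theorem inner_comb (n : ℕ) (w : ℕ → H) (a c : ℕ → ℝ)
    (hd : ∀ i < n, ∀ j < n, i ≠ j → inner ℝ (w i) (w j) = (0 : ℝ)) :
    inner ℝ (∑ i ∈ Finset.range n, a i • w i) (∑ i ∈ Finset.range n, c i • w i) =
      ∑ i ∈ Finset.range n, a i * c i * ‖w i‖ ^ 2 := by
  rw [sum_inner]
  apply Finset.sum_congr rfl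
  intro i hi
  rw [inner_sum, Finset.sum_eq_single_of_mem i hi]
  · rw [real_inner_smul_left, real_inner_smul_right, real_inner_self_eq_norm_sq]; ring
  · intro j hj hji
    rw [real_inner_smul_left, real_inner_smul_right,
      hd i (Finset.mem_range.mp hi) j (Finset.mem_range.mp hj) (Ne.symm hji)]
    ring

theorem not_trivial (W : Submodule ℝ H) (hW : ¬ FiniteDimensional ℝ W)
    (M : W →ₗ[ℝ] (ℕ → ℝ)) (C : ℝ) (hM : ∀ x : W, Bd (K0 (x : H) - M x) (C * ‖x‖)) : False := by
  classical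
  set C' : ℝ := |C| with hC'
  have hC0 : 0 ≤ C' := abs_nonneg C
  -- choice of `n`
  obtain ⟨n, hn⟩ := exists_nat_gt (Real.exp (4 * (4 * C' + 40)))
  have hexp := Real.exp_pos (4 * (4 * C' + 40))
  have hn0 : (0 : ℝ) < n := hexp.trans hn
  have hn1 : (1 : ℝ) ≤ n := by
    have : 1 ≤ Real.exp (4 * (4 * C' + 40)) := Real.one_le_exp (by positivity)
    linarith
  have hlog : 4 * (4 * C' + 40) < Real.log n := by
    rw [Real.lt_log_iff_exp_lt hn0]; exact hn
  set ε : ℝ := 1 / (2 * (n : ℝ) ^ 2) with hε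
  have hε0 : 0 < ε := by positivity
  have hn2 : (1 : ℝ) ≤ (n : ℝ) ^ 2 := one_le_pow₀ hn1
  have hε1 : ε ≤ 1 / 2 := by
    rw [hε, div_le_div_iff₀ (by positivity) (by norm_num)]
    linarith
  have hεn : (n : ℝ) ^ 2 * ε ≤ 1 := by
    rw [hε]
    have : (n : ℝ) ^ 2 * (1 / (2 * (n : ℝ) ^ 2)) = 1 / 2 := by field_simp
    rw [this]; norm_num
  -- the vectors
  choose fx fw ft fN h1 h2 h3 h4 h5 h6 using fun N : ℕ => exists_vec W hW N ε hε0
  let Ns : ℕ → ℕ := fun i => Nat.rec 0 (fun _ r => fN r) i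
  have hNs : ∀ i, Ns (i + 1) = fN (Ns i) := fun i => rfl
  have hNmono : Monotone Ns := monotone_nat_of_le_succ (fun i => by rw [hNs]; exact h6 _)
  let x : ℕ → H := fun i => fx (Ns i)
  let w : ℕ → H := fun i => fw (Ns i)
  let t : ℕ → H := fun i => ft (Ns i)
  have hxW : ∀ i, x i ∈ W := fun i => h1 _
  have hx1 : ∀ i, ‖x i‖ = 1 := fun i => h2 _
  have hxwt : ∀ i, x i = w i + t i := fun i => h3 _
  have ht : ∀ i, ‖t i‖ ≤ ε := fun i => h4 _
  have hws : ∀ i k, w i k ≠ 0 → Ns i ≤ k ∧ k < Ns (i + 1) := fun i k hk => h5 _ k hk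
  have hdisj : ∀ k i j, w i k ≠ 0 → w j k ≠ 0 → i = j := by
    intro k i j hi hj
    have a1 := hws i k hi
    have a2 := hws j k hj
    rcases lt_trichotomy i j with h | h | h
    · have := hNmono (Nat.succ_le_of_lt h)
      exact absurd (lt_of_lt_of_le a1.2 (this.trans a2.1)) (lt_irrefl _)
    · exact h
    · have := hNmono (Nat.succ_le_of_lt h)
      exact absurd (lt_of_lt_of_le a2.2 (this.trans a1.1)) (lt_irrefl _)
  have horth : ∀ i < n, ∀ j < n, i ≠ j → inner ℝ (w i) (w j) = (0 : ℝ) := by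
    intro i _ j _ hij
    apply inner_disj
    intro k
    by_contra h
    push Not at h
    exact hij (hdisj k i j h.1 h.2)
  have hwlo : ∀ i, 1 / 2 ≤ ‖w i‖ := by
    intro i
    have a1 : ‖x i‖ ≤ ‖w i‖ + ‖t i‖ := by rw [hxwt]; exact norm_add_le _ _
    rw [hx1] at a1
    linarith [ht i]
  have hwhi : ∀ i, ‖w i‖ ≤ 2 := by
    intro i
    have a1 : w i = x i - t i := by rw [hxwt]; abel
    have a2 : ‖w i‖ ≤ ‖x i‖ + ‖t i‖ := by rw [a1]; exact norm_sub_le _ _
    rw [hx1] at a2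
    linarith [ht i]
  -- errors
  have hr : ∀ i, ∃ r : H, (∀ k, r k = K0 (x i) k - K0 (w i) k - K0 (t i) k) ∧ ‖r‖ ≤ 15 := by
    intro i
    have a1 := K0_quasi (w i) (t i)
    rw [← hxwt] at a1
    obtain ⟨r, a2, a3⟩ := a1
    refine ⟨r, fun k => a2 k, a3.trans ?_⟩
    have := hwhi i
    have := ht i
    linarith
  choose r hr hr15 using hr
  have hd : ∀ i, ∃ d : H, (∀ k, d k = K0 (x i) k - M ⟨x i, hxW i⟩ k) ∧ ‖d‖ ≤ C' := by
    intro i
    obtain ⟨d, a2, a3⟩ := hM ⟨x i, hxW i⟩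
    refine ⟨d, fun k => a2 k, a3.trans ?_⟩
    have a4 : ‖(⟨x i, hxW i⟩ : W)‖ = 1 := hx1 i
    rw [a4, mul_one]
    exact le_abs_self C
  choose d hd hdC using hd
  -- signs
  set a : ℝ := (Real.sqrt n)⁻¹ with ha
  have hsq : 0 < Real.sqrt n := Real.sqrt_pos.mpr hn0
  have ha0 : 0 < a := inv_pos.mpr hsq
  have ha2 : a ^ 2 = (n : ℝ)⁻¹ := by rw [ha, inv_pow, Real.sq_sqrt hn0.le]
  have ha1 : a ≤ 1 := by
    have : a ^ 2 ≤ 1 ^ 2 := by
      rw [ha2, one_pow]; exact inv_le_one_of_one_le₀ hn1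
    exact le_of_sq_le_sq this (by norm_num)
  have hloga : Real.log a = -(1 / 2) * Real.log n := by
    have b1 := congrArg Real.log ha2
    have b2 := Real.log_inv (n : ℝ)
    rw [b2] at b1
    have b3 : Real.log (a ^ 2) = 2 * Real.log a := by
      rw [Real.log_pow]; push_cast; ring
    linarith
  obtain ⟨θ, hθ, hθs⟩ := exists_signs n (fun i => a • (d i - r i))
  have hθ1 : ∀ i, |θ i| = 1 := by
    intro i
    rcases hθ i with h | h <;> rw [h] <;> simp
  have hθ0 : ∀ i, θ i ≠ 0 := by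
    intro i h
    have := hθ1 i
    rw [h] at this
    simp at this
  have hθlog : ∀ i, Real.log (θ i) = 0 := by
    intro i
    rw [← Real.log_abs, hθ1, Real.log_one]
  set b : ℕ → ℝ := fun i => a * θ i with hb
  have hb0 : ∀ i < n, b i ≠ 0 := fun i _ => mul_ne_zero ha0.ne' (hθ0 i)
  have hbabs : ∀ i, |b i| = a := by
    intro i
    rw [hb]; simp only
    rw [abs_mul, hθ1, mul_one, abs_of_pos ha0]
  have hbsq : ∀ i, b i * b i = a ^ 2 := by
    intro i
    rw [← sq, ← sq_abs, hbabs]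
  -- combinations
  set X : H := ∑ i ∈ Finset.range n, b i • x i with hX
  set w' : H := ∑ i ∈ Finset.range n, b i • w i with hw'
  set t' : H := ∑ i ∈ Finset.range n, b i • t i with ht'
  have hXwt : X = w' + t' := by
    rw [hX, hw', ht', ← Finset.sum_add_distrib]
    apply Finset.sum_congr rfl
    intro i _
    rw [hxwt, smul_add]
  -- norms
  have hw'sq : ‖w'‖ ^ 2 = ∑ i ∈ Finset.range n, a ^ 2 * ‖w i‖ ^ 2 := by
    rw [← real_inner_self_eq_norm_sq, hw', inner_comb n w b b horth]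
    apply Finset.sum_congr rfl
    intro i _
    rw [hbsq]
  have hna : (n : ℝ) * a ^ 2 = 1 := by rw [ha2]; field_simp
  have hw'hi : ‖w'‖ ≤ 2 := by
    have : ‖w'‖ ^ 2 ≤ 2 ^ 2 := by
      rw [hw'sq]
      calc ∑ i ∈ Finset.range n, a ^ 2 * ‖w i‖ ^ 2 ≤ ∑ i ∈ Finset.range n, a ^ 2 * 2 ^ 2 := by
            apply Finset.sum_le_sum
            intro i _
            exact mul_le_mul_of_nonneg_left (pow_le_pow_left₀ (norm_nonneg _) (hwhi i) 2)
              (by positivity)
        _ = 2 ^ 2 := by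
            rw [Finset.sum_const, Finset.card_range, nsmul_eq_mul, ← mul_assoc, hna, one_mul]
    exact le_of_sq_le_sq this (by norm_num)
  have hw'lo : 1 / 2 ≤ ‖w'‖ := by
    have : (1 / 2 : ℝ) ^ 2 ≤ ‖w'‖ ^ 2 := by
      rw [hw'sq]
      calc (1 / 2 : ℝ) ^ 2 = ∑ i ∈ Finset.range n, a ^ 2 * (1 / 2) ^ 2 := by
            rw [Finset.sum_const, Finset.card_range, nsmul_eq_mul, ← mul_assoc, hna, one_mul]
        _ ≤ ∑ i ∈ Finset.range n, a ^ 2 * ‖w i‖ ^ 2 := by
            apply Finset.sum_le_sum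
            intro i _
            exact mul_le_mul_of_nonneg_left (pow_le_pow_left₀ (by norm_num) (hwlo i) 2)
              (by positivity)
    exact le_of_sq_le_sq this (norm_nonneg _)
  have hbt : ∑ i ∈ Finset.range n, ‖b i • t i‖ ≤ n * ε := by
    calc ∑ i ∈ Finset.range n, ‖b i • t i‖ ≤ ∑ i ∈ Finset.range n, ε := by
          apply Finset.sum_le_sum
          intro i _
          rw [norm_smul, Real.norm_eq_abs, hbabs]
          calc a * ‖t i‖ ≤ 1 * ε := mul_le_mul ha1 (ht i) (norm_nonneg _) (by norm_num)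
            _ = ε := one_mul _
      _ = n * ε := by rw [Finset.sum_const, Finset.card_range, nsmul_eq_mul]
  have hnε : (n : ℝ) * ε ≤ 1 := by
    have : (n : ℝ) * ε ≤ (n : ℝ) ^ 2 * ε := by
      apply mul_le_mul_of_nonneg_right _ hε0.le
      nlinarith
    linarith
  have ht'hi : ‖t'‖ ≤ 1 := by
    have a1 : ‖t'‖ ≤ ∑ i ∈ Finset.range n, ‖b i • t i‖ := norm_sum_le _ _
    linarith
  have hXhi : ‖X‖ ≤ 3 := by
    rw [hXwt]
    have := norm_add_le w' t'
    linarith
  -- the error of `X`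
  have hXW : X ∈ W := by
    rw [hX]
    exact W.sum_mem (fun i _ => W.smul_mem _ (hxW i))
  obtain ⟨dX, hdX, hdX'⟩ := hM ⟨X, hXW⟩
  have hdXn : ‖dX‖ ≤ 3 * C' := by
    refine hdX'.trans ?_
    have a4 : ‖(⟨X, hXW⟩ : W)‖ = ‖X‖ := rfl
    rw [a4]
    calc C * ‖X‖ ≤ C' * ‖X‖ := mul_le_mul_of_nonneg_right (le_abs_self C) (norm_nonneg _)
      _ ≤ C' * 3 := mul_le_mul_of_nonneg_left hXhi hC0
      _ = 3 * C' := by ring
  have hMX : ∀ k, M ⟨X, hXW⟩ k = ∑ i ∈ Finset.range n, b i * M ⟨x i, hxW i⟩ k := by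
    intro k
    have a1 : (⟨X, hXW⟩ : W) = ∑ i ∈ Finset.range n, b i • (⟨x i, hxW i⟩ : W) := by
      apply Subtype.ext
      rw [Submodule.coe_sum]
      rfl
    rw [a1, map_sum, Finset.sum_apply]
    apply Finset.sum_congr rfl
    intro i _
    rw [map_smul]
    rfl
  obtain ⟨rX, hrX, hrX'⟩ := K0_quasi w' t'
  rw [← hXwt] at hrX
  have hrXn : ‖rX‖ ≤ 15 := hrX'.trans (by linarith)
  obtain ⟨s, hs, hs'⟩ := K0_sum n (fun i => b i • t i)
  have hsn : ‖s‖ ≤ 5 := by
    refine hs'.trans ?_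
    calc 5 * (n : ℝ) * ∑ i ∈ Finset.range n, ‖b i • t i‖ ≤ 5 * n * (n * ε) :=
          mul_le_mul_of_nonneg_left hbt (by positivity)
      _ = 5 * ((n : ℝ) ^ 2 * ε) := by ring
      _ ≤ 5 := by linarith
  have hsk : ∀ k, s k = K0 t' k - ∑ i ∈ Finset.range n, b i * K0 (t i) k := by
    intro k
    rw [hs k, Pi.sub_apply, Finset.sum_apply]
    congr 1
    apply Finset.sum_congr rfl
    intro i _
    rw [K0_smul]; rfl
  -- the main term
  set c : ℕ → ℝ := fun i => Real.log (b i) - Real.log ‖w'‖ + Real.log ‖w i‖ with hc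
  set main : H := ∑ i ∈ Finset.range n, (c i * b i) • w i with hmain
  have hcoe : ∀ (v : ℕ → H) (k : ℕ), (∑ i ∈ Finset.range n, v i : H) k =
      ∑ i ∈ Finset.range n, v i k := by
    intro v k
    let ev : H →+ ℝ :=
      { toFun := fun x => x k
        map_zero' := rfl
        map_add' := fun x y => rfl }
    exact map_sum ev v (Finset.range n)
  have hmaink : ∀ k, main k = K0 w' k - ∑ i ∈ Finset.range n, b i * K0 (w i) k := by
    intro k
    rw [hw', K0_disj n w b hb0 (fun k i _ j _ => hdisj k i j) k, hmain, hcoe]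
    apply Finset.sum_congr rfl
    intro i _
    show (c i * b i) * w i k = _
    rw [hc]
    simp only
    ring
  set S : H := ∑ i ∈ Finset.range n, θ i • (a • (d i - r i)) with hS
  have hSn : ‖S‖ ≤ C' + 15 := by
    have a1 : ‖S‖ ^ 2 ≤ (C' + 15) ^ 2 := by
      refine hθs.trans ?_
      calc ∑ i ∈ Finset.range n, ‖a • (d i - r i)‖ ^ 2
          ≤ ∑ i ∈ Finset.range n, a ^ 2 * (C' + 15) ^ 2 := by
            apply Finset.sum_le_sum
            intro i _
            rw [norm_smul, mul_pow, Real.norm_eq_abs, sq_abs]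
            apply mul_le_mul_of_nonneg_left _ (by positivity)
            apply pow_le_pow_left₀ (norm_nonneg _)
            exact (norm_sub_le _ _).trans (add_le_add (hdC i) (hr15 i))
        _ = (C' + 15) ^ 2 := by
            rw [Finset.sum_const, Finset.card_range, nsmul_eq_mul, ← mul_assoc, hna, one_mul]
    exact le_of_sq_le_sq a1 (by positivity)
  have hident : main = dX - s - rX - S := by
    ext k
    show main k = dX k - s k - rX k - S k
    have a1 : S k = ∑ i ∈ Finset.range n, b i * (d i k - r i k) := by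
      rw [hS, hcoe]
      apply Finset.sum_congr rfl
      intro i _
      show θ i * (a * (d i k - r i k)) = (a * θ i) * (d i k - r i k)
      ring
    have a2 : dX k = K0 X k - M ⟨X, hXW⟩ k := hdX k
    have a3 : rX k = K0 X k - K0 w' k - K0 t' k := hrX k
    rw [hmaink, a1, a2, a3, hsk, hMX]
    have a4 : ∑ i ∈ Finset.range n, b i * (d i k - r i k) =
        ∑ i ∈ Finset.range n, b i * K0 (w i) k + ∑ i ∈ Finset.range n, b i * K0 (t i) k -
          ∑ i ∈ Finset.range n, b i * M ⟨x i, hxW i⟩ k := by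
      rw [← Finset.sum_add_distrib, ← Finset.sum_sub_distrib]
      apply Finset.sum_congr rfl
      intro i _
      rw [hd, hr]
      ring
    rw [a4]
    ring
  have hup : ‖main‖ ≤ 4 * C' + 35 := by
    rw [hident]
    have a1 := norm_sub_le (dX - s - rX) S
    have a2 := norm_sub_le (dX - s) rX
    have a3 := norm_sub_le dX s
    linarith
  -- lower bound
  have hci : ∀ i, c i ≤ -(1 / 2) * Real.log n + 2 := by
    intro i
    rw [hc]
    simp only
    have a1 : Real.log (b i) = -(1 / 2) * Real.log n := by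
      rw [hb]
      simp only
      rw [Real.log_mul ha0.ne' (hθ0 i), hθlog, add_zero, hloga]
    have a2 : Real.log ‖w i‖ ≤ 1 := by
      have := Real.log_le_sub_one_of_pos (x := ‖w i‖) (by linarith [hwlo i])
      linarith [hwhi i]
    have a3 : -1 ≤ Real.log ‖w'‖ := by
      have := Real.one_sub_inv_le_log_of_pos (x := ‖w'‖) (by linarith)
      have a4 : ‖w'‖⁻¹ ≤ 2 := by
        rw [inv_le_comm₀ (by linarith) (by norm_num)]
        linarith
      linarith
    rw [a1]
    linarith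
  have hlow : (1 / 2 * Real.log n - 2) * ‖w'‖ ^ 2 ≤ ‖main‖ * ‖w'‖ := by
    have a1 : inner ℝ main w' = ∑ i ∈ Finset.range n, c i * b i * b i * ‖w i‖ ^ 2 := by
      rw [hmain, hw', inner_comb n w (fun i => c i * b i) b horth]
    have a2 : (1 / 2 * Real.log n - 2) * ‖w'‖ ^ 2 ≤ - inner ℝ main w' := by
      rw [a1, hw'sq, Finset.mul_sum, ← Finset.sum_neg_distrib]
      apply Finset.sum_le_sum
      intro i _
      rw [mul_assoc (c i), hbsq]
      have a3 : 0 ≤ a ^ 2 * ‖w i‖ ^ 2 := by positivity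
      have a4 := hci i
      nlinarith [mul_le_mul_of_nonneg_right a4 a3]
    have a5 : - inner ℝ main w' ≤ ‖main‖ * ‖w'‖ :=
      (neg_le_abs _).trans (abs_real_inner_le_norm _ _)
    exact a2.trans a5
  have hlow2 : (1 / 2 * Real.log n - 2) * ‖w'‖ ≤ ‖main‖ := by
    have a1 : 0 < ‖w'‖ := by linarith
    rw [sq, ← mul_assoc] at hlow
    exact le_of_mul_le_mul_right hlow a1
  have h9 : (1 / 2 * Real.log n - 2) * (1 / 2) ≤ (1 / 2 * Real.log n - 2) * ‖w'‖ := by
    apply mul_le_mul_of_nonneg_left hw'lo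
    linarith
  linarith

end Pool.Agent.V11102.KP
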